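import Mathlib
import Pool.Prelude.Def_F_b1b78ff3
import Pool.Agent.Run7.h456.IG.NF2

/-!
# The inverse Galois problem and the inverse Galois problem with conditions on all decomposition
groups

For every finite group `G` and every `k` there is a finite cover `π : H → G` with abelian kernel
such that, whenever a Galois extension `L` of a number field `K` has Galois group `H`, the
subextension `F` with group `G` given by `π` satisfies

* every real place of `K` stays real in `F`;
* for every prime ideal of `F` with residue characteristic `p` the Sylow `l`-subgroups, `l ≠ p`, of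
  its decomposition group in `G` are cyclic;
* if a prime number `l` divides the ramification index over `K` of a prime ideal of `F` with
  residue characteristic `p ≠ l`, then `l ^ k` divides `N ^ n - 1`, where `N` is the norm of the
  prime ideal of `K` below and `n = |G|`.

Hence the inverse Galois problem over `K` has a positive answer if and only if each finite group
is the Galois group of such extensions of `K`, for every `k`.  Over the rational numbers: every
finite group is a Galois group over the rationals if and only if for every finite group `G` and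
every `B` there is a totally real Galois number field `L` with group `G` such that the Sylow
`l`-subgroups of the decomposition groups of the primes over `p` are cyclic for all `p ≠ l`, and
such that the ramification indices over each prime number `p ≤ B` are powers of `p`; in particular
the prime numbers `p ≤ B` which do not divide `|G|` are unramified in `L`.

Outline of the proof.  The group `Cov G m` consists of the pairs `(v, g)`, where `g ∈ G` and `v` is
a family `(v x)`, `x ∈ G`, of elements of the group ring `R` of `G` over `ZMod m` with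
`∑ x, (x - 1) v x = g - 1`; the product is `(v, g) (w, h) = (v h + w, g h)`.  (It is the quotient
of the free group on `G` by the `m`-th powers and the commutators of its relations, in Fox
coordinates.)  The projection to `G` is onto, since `g - 1` is the value at the family which is `1`
at `g` and `0` elsewhere, and its kernel is abelian of exponent dividing `m`.

*Element orders grow.*  Let `t = (v, g)` with `g` of order `r`, let `l` be a prime divisor of `r`
with `l ^ k ∣ m` and let `t ^ (r n) = 1`; then `l ^ k ∣ n`.  Indeed `t ^ r = (w, 1)`, where `w x y`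
is the sum of the `v x y'`, `y'` in the coset of `y` modulo the powers of `g`.  From `n w = 0` one
gets `w = 0` modulo `l` if `l ^ k` does not divide `n`.  Choose `c : G → ZMod l` with
`c (y g) = c y + 1` for all `y`, and apply `c` to the relation `∑ x, (x - 1) v x = g - 1`: on the
right one gets `1`, on the left the sum of the `v x y (c (x y) - c y)`, which is `0` modulo `l`,
because `c (x y) - c y` depends on the coset of `y` only.  In particular an element `t` with
`t ^ 2 = 1` has trivial image in `G` if `4 ∣ m`: the image of a complex conjugation in `G` is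
trivial (the case of odd `|G|` is clear).

*Crossed homomorphisms.*  Let `T` be a subgroup of `Cov G m` with image `U` in `G`, where `|U|`
divides `m`, and let `b` be a crossed homomorphism from `T` to the kernel `A` of `Cov G m → G`
which is the `e`-th power on `T ∩ A`.  Then `|U|` divides `e`: the map `t ↦ e v - b t` is a cocycle
of `U` with values in a free `ZMod m [U]`-module, so it is `u ↦ Y (u - 1)`, and by the relation
`e - ∑ x, (x - 1) Y x` is invariant under `U`, so that its coefficient sum `e` is divisible by
`|U|` (`crossed_dvd`).  With `b t = t ^ e`, `e` the exponent of `U`, it follows that an abelian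
subgroup `T` has a cyclic image.  The same holds for a group `T` with an abelian subgroup of index
two whose image is of even order, if `T` is a 2-group (`index_two`).

*Metacyclic subgroups.*  Let `l ^ c` be the order of a Sylow `l`-subgroup of `G`, `l ^ (3 c) ∣ m`,
and let `T` be an `l`-subgroup of `Cov G m` generated by `x` and `τ` with `x τ x⁻¹ = τ ^ r`.  Since
the order of `τ` grows and the kernel is abelian, `r` is `1` modulo `l ^ (2 c)` if `l` is odd, and
`r ^ 2` is `1` modulo `l ^ (2 c)` if `l = 2` (if the image of `τ` is not trivial).  In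
`Cov G (l ^ c)` the images of `τ` and of `x` or `x ^ 2` commute.  So the image of `T` in `G` is
cyclic (`metacyclic_cyclic`).

*Decomposition groups.*  An `l`-subgroup of the decomposition group of a prime ideal over `p ≠ l`
is metacyclic, since it meets the wild inertia group trivially and since the tame inertia group
and the Galois group of the residue fields are cyclic.

*Tame inertia.*  Let `T` be the inertia group of a prime ideal of `L` of residue characteristic
`p`, `W` its wild subgroup, `φ` a Frobenius element, `N` the norm of the prime ideal of `K` below,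
and let `l ≠ p` be a prime number which divides the order of the image of `T` in `G`.  Take `τ ∈ T`
of order prime to `p` with image of order `l`.  Then `φ τ φ⁻¹ = τ ^ N` modulo `W`.  With the order
`f` of the image of `φ` the elements `φ ^ f` and `τ ^ l` lie in the abelian kernel, so they commute
and `τ ^ (l (N ^ f - 1))` lies in `W`, hence is `1`.  So `l ^ k` divides `N ^ f - 1`, which divides
`N ^ n - 1`.
-/

set_option autoImplicit false

open scoped NumberField
open Nfff32c05

namespace Pool.Agent.Results.MP_dadaab_nt.TotallyRealForFree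

/-- Real embeddings of `K` extend only to real embeddings of `L`. -/
def RealStays (K L : Type) [Field K] [Field L] [Algebra K L] : Prop :=
  ∀ φ : L →+* ℂ, (∀ x : K, starRingEnd ℂ (φ (algebraMap K L x)) = φ (algebraMap K L x)) →
    ∀ x : L, starRingEnd ℂ (φ x) = φ x

/-- If the prime ideal `P` of `L` lies over the prime number `p` and the prime number `l ≠ p`
divides the ramification index of `P` over `K`, then `l ^ k` divides `N ^ n - 1`, where `N` is the
norm of the prime ideal of `K` below `P` and `n = [L : K]`. -/
def TameRestricted (K L : Type) [Field K] [NumberField K] [Field L] [NumberField L] [Algebra K L]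
    (k : ℕ) : Prop :=
  ∀ P : Ideal (𝓞 L), P.IsPrime → P ≠ ⊥ → ∀ p l : ℕ, p.Prime → (p : 𝓞 L) ∈ P → l.Prime → l ≠ p →
    l ∣ P.ramificationIdx (𝓞 K) →
      l ^ k ∣ Nat.card (𝓞 K ⧸ P.under (𝓞 K)) ^ Module.finrank K L - 1

/-- For every prime ideal `P` of `L` over the prime number `p` and every prime number `l ≠ p` the
subgroups of `l`-power order of the decomposition group of `P` are cyclic; in other words, the Sylow
`l`-subgroups of the decomposition group of `P` are cyclic. -/
def LocallyCyclic (K L : Type) [Field K] [NumberField K] [Field L] [NumberField L]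
    [Algebra K L] : Prop :=
  ∀ P : Ideal (𝓞 L), P.IsPrime → P ≠ ⊥ → ∀ p l : ℕ, p.Prime → (p : 𝓞 L) ∈ P → l.Prime → l ≠ p →
    ∀ T : Subgroup Gal(L/K), IsPGroup l T → (∀ σ ∈ T, ∀ x ∈ P, σ • x ∈ P) → IsCyclic T

/-- `L` is a Galois extension of `K` with group isomorphic to `G`, real places stay real, the Sylow
`l`-subgroups of the decomposition groups at the primes over `p ≠ l` are cyclic, and the tame
ramification is restricted. -/
def Strong (K L G : Type) [Field K] [NumberField K] [Field L] [NumberField L] [Algebra K L]
    [Group G] (k : ℕ) : Prop :=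
  IsGalois K L ∧ Nonempty (G ≃* Gal(L/K)) ∧ RealStays K L ∧ LocallyCyclic K L ∧
    TameRestricted K L k

/-- `π` is a finite cover of `G` with abelian kernel of exponent dividing `|G| ^ (k + 3)` and with
the following property: whenever a Galois extension `L` of a number field `K` has Galois group
isomorphic to `H`, the subextension `F` with group `G` given by `π` is strong. -/
def GoodCover {H G : Type} [Group H] [Group G] (π : H →* G) (k : ℕ) : Prop :=
  Function.Surjective π ∧ (∀ a b : H, π a = 1 → π b = 1 → a * b = b * a) ∧
  (∀ a : H, π a = 1 → a ^ (Nat.card G ^ (k + 3)) = 1) ∧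
  ∀ (K L : Type) [Field K] [NumberField K] [Field L] [NumberField L] [Algebra K L] [IsGalois K L]
    (e : Gal(L/K) ≃* H) (F : IntermediateField K L),
    F = IntermediateField.fixedField (π.comp e.toMonoidHom).ker → Strong K F G k

/-- For every prime number `p ≤ B` the ramification indices of the number field `L` over `p` are
powers of `p`, and they are `1` if `p` does not divide the degree of `L`. -/
def OnlyWildUpTo (L : Type) [Field L] [NumberField L] (B : ℕ) : Prop :=
  ∀ p : ℕ, p.Prime → p ≤ B → ∀ P : Ideal (𝓞 L), P.IsPrime → (p : 𝓞 L) ∈ P →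
    (∃ j : ℕ, P.ramificationIdx ℤ = p ^ j) ∧
    (¬ p ∣ Module.finrank ℚ L → P.ramificationIdx ℤ = 1)

end Pool.Agent.Results.MP_dadaab_nt.TotallyRealForFree

namespace Pool.Agent.Results.MP_dadaab_nt.TotallyRealForFree

open Run7.h456.IG

theorem ker_pow {G : Type} [Group G] [Fintype G] [DecidableEq G] {m : ℕ} (a : Cov G m)
    (ha : Cov.pr a = 1) : a ^ m = 1 := by
  apply Cov.eq_of
  · intro x y
    rw [Cov.pow_v_of_one a ha, Cov.one_v, ZMod.natCast_self, zero_mul]
  · rw [Cov.pow_g, ← Cov.pr_apply, ha, one_pow, Cov.one_g]

theorem finrank_eq {K L G : Type} [Field K] [Field L] [Algebra K L] [FiniteDimensional K L]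
    [IsGalois K L] [Group G] [Fintype G] (h : Nonempty (G ≃* Gal(L/K))) :
    Module.finrank K L = Fintype.card G := by
  obtain ⟨e⟩ := h
  rw [← IsGalois.card_aut_eq_finrank, ← Nat.card_congr e.toEquiv, Nat.card_eq_fintype_card]

theorem goodCover (G : Type) [Group G] [Fintype G] [DecidableEq G] (k : ℕ) :
    GoodCover (Cov.pr : Cov G (Fintype.card G ^ (k + 3)) →* G) k := by
  have : NeZero (Fintype.card G ^ (k + 3)) := ⟨pow_ne_zero _ Fintype.card_ne_zero⟩
  refine ⟨Cov.pr_surjective, Cov.ker_comm, ?_, ?_⟩
  · intro a ha
    rw [Nat.card_eq_fintype_card]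
    exact ker_pow a ha
  · intro K L _ _ _ _ _ _ e F hF
    obtain ⟨h1, h2⟩ := nf_galois e Cov.pr Cov.pr_surjective F hF
    have hfr : Module.finrank K F = Fintype.card G := finrank_eq h2
    refine ⟨h1, h2, ?_, ?_, ?_⟩
    · exact nf_real e (fun h => dvd_pow h (Nat.succ_ne_zero _)) F hF
    · refine nf_cyclic e ?_ F hF
      intro l hl _
      have e1 : l ^ (3 * (Fintype.card G).factorization l) =
          (l ^ (Fintype.card G).factorization l) ^ 3 := by rw [← pow_mul, mul_comm]
      rw [e1]
      exact (pow_dvd_pow_of_dvd (Nat.ordProj_dvd _ _) 3).trans (pow_dvd_pow _ (by omega))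
    · intro P hP hP0 p l hp hpP hl hlp hl2
      rw [hfr]
      refine nf_ram e F hF (R := 𝓞 K) (fun _ _ => inferInstance) P hP hP0 p l k hp hpP hl hlp ?_ hl2
      intro h
      exact (pow_dvd_pow l (by omega)).trans (pow_dvd_pow_of_dvd h (k + 3))

/-- a number field realizing a finite group -/
theorem exists_nf {K : Type} [Field K] [NumberField K] {H : Type} [Group H] [Finite H]
    (h : IsRealizable K H) : ∃ (L : Type) (_ : Field L) (_ : NumberField L) (_ : Algebra K L)
      (_ : IsGalois K L), Nonempty (Gal(L/K) ≃* H) := by
  obtain ⟨⟨L, i1, i2, i3, e⟩⟩ := h.exists_realization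
  have hfin : Finite Gal(L/K) := Finite.of_equiv H e.toEquiv
  have hfd : FiniteDimensional K L := IsGaloisGroup.finiteDimensional Gal(L/K) K L
  exact ⟨L, i1, NumberField.of_module_finite K L, i2, i3, ⟨e.symm⟩⟩

theorem realizable_of {K L G : Type} [Field K] [Field L] [Algebra K L] [IsGalois K L] [Group G]
    (h : Nonempty (G ≃* Gal(L/K))) : IsRealizable K G := by
  obtain ⟨e⟩ := h
  exact ⟨⟨⟨L, inferInstance, inferInstance, inferInstance, e⟩⟩⟩

theorem card_under {L : Type} [Field L] [NumberField L] (P : Ideal (𝓞 L)) (hP : P.IsPrime) (p : ℕ)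
    (hp : p.Prime) (hpP : (p : 𝓞 L) ∈ P) : Nat.card (ℤ ⧸ P.under ℤ) = p := by
  have hmax : (Ideal.span {(p : ℤ)}).IsMaximal := by
    have : Fact p.Prime := ⟨hp⟩
    exact Int.ideal_span_isMaximal_of_prime p
  have h1 : Ideal.span {(p : ℤ)} ≤ P.under ℤ := by
    rw [Ideal.span_singleton_le_iff_mem, Ideal.under_def, Ideal.mem_comap]
    simpa using hpP
  have h2 : Ideal.span {(p : ℤ)} = P.under ℤ :=
    hmax.eq_of_le (Ideal.IsPrime.ne_top inferInstance) h1
  rw [← h2]
  rw [Nat.card_congr (Int.quotientSpanNatEquivZMod p).toEquiv, Nat.card_zmod]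

theorem pow_of_primes (e p : ℕ) (he : e ≠ 0)
    (h : ∀ l : ℕ, l.Prime → l ∣ e → l = p) : ∃ j : ℕ, e = p ^ j := by
  exact ⟨_, (Nat.eq_prime_pow_of_unique_prime_dvd he (fun {l} hl hle => h l hl hle))⟩

theorem change_algebra (F G : Type) [Field F] [NumberField F] [Group G] (i j : Algebra ℚ F)
    (h : letI := i; IsGalois ℚ F ∧ Nonempty (G ≃* Gal(F/ℚ)) ∧ LocallyCyclic ℚ F) :
    letI := j; IsGalois ℚ F ∧ Nonempty (G ≃* Gal(F/ℚ)) ∧ LocallyCyclic ℚ F := by
  obtain rfl : i = j := Subsingleton.elim _ _
  exact h

theorem rational_case (G : Type) [Group G] [Finite G] (B : ℕ)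
    (h : ∀ (G : Type) [Group G] [Finite G], IsRealizable ℚ G) :
    ∃ (L : Type) (_ : Field L) (_ : NumberField L), IsGalois ℚ L ∧ Nonempty (G ≃* Gal(L/ℚ)) ∧
      NumberField.IsTotallyReal L ∧ LocallyCyclic ℚ L ∧ OnlyWildUpTo L B := by
  classical
  have hft : Fintype G := Fintype.ofFinite G
  set n := Fintype.card G with hn
  obtain ⟨k, hk⟩ : ∃ k : ℕ, B ^ n < 2 ^ k := ⟨B ^ n, Nat.lt_two_pow_self⟩
  have : NeZero (Fintype.card G ^ (k + 3)) := ⟨pow_ne_zero _ Fintype.card_ne_zero⟩
  obtain ⟨L, i1, i2, i3, i4, ⟨e⟩⟩ := exists_nf (h (Cov G (Fintype.card G ^ (k + 3))))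
  obtain rfl : i3 = DivisionRing.toRatAlgebra := Subsingleton.elim _ _
  set F : IntermediateField ℚ L :=
    IntermediateField.fixedField ((Cov.pr).comp e.toMonoidHom).ker with hF
  have hgood := (goodCover G k).2.2.2 ℚ L e F hF
  obtain ⟨h1, h2, h3, h4, -⟩ := hgood
  have h12 := change_algebra F G F.algebra' DivisionRing.toRatAlgebra ⟨h1, h2, h4⟩
  refine ⟨F, inferInstance, inferInstance, h12.1, h12.2.1, ?_, h12.2.2, ?_⟩
  · refine ⟨fun v => ?_⟩
    rw [NumberField.InfinitePlace.isReal_iff, NumberField.ComplexEmbedding.isReal_iff]
    ext x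
    refine h3 v.embedding (fun y => ?_) x
    simp
  · intro p hp hpB P hP hpP
    have hP0 : P ≠ ⊥ := by
      intro h0
      rw [h0, Ideal.mem_bot] at hpP
      exact hp.ne_zero (by exact_mod_cast hpP)
    obtain ⟨⟨Q, hQ, hQP⟩⟩ := P.nonempty_primesOver (S := 𝓞 L)
    have hcard := ram_fixed _ F hF (R := ℤ) (fun _ _ => inferInstance) P Q
    have hpos : P.ramificationIdx ℤ ≠ 0 := by
      rw [hcard]
      exact Nat.card_pos.ne'
    have hdvd : P.ramificationIdx ℤ ∣ Fintype.card G := by
      have h0 := Subgroup.card_subgroup_dvd_card
        (Subgroup.map ((Cov.pr).comp e.toMonoidHom) (Ideal.inertia Gal(L/ℚ) Q))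
      rw [hcard]
      exact h0.trans (by rw [Nat.card_eq_fintype_card])
    have hfr : Module.finrank ℚ F = Fintype.card G := by
      obtain ⟨h1', h2', -⟩ := h12
      exact finrank_eq h2'
    have hmain : ∃ j : ℕ, P.ramificationIdx ℤ = p ^ j := by
      apply pow_of_primes _ p hpos
      intro l hl hle
      by_contra hlp
      have h4 := nf_ram e F hF (R := ℤ) (fun _ _ => inferInstance) P hP hP0 p l k hp hpP hl hlp
        (fun h => (pow_dvd_pow l (by omega)).trans (pow_dvd_pow_of_dvd h (k + 3))) hle
      rw [card_under P hP p hp hpP] at h4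
      have hp1 : 1 < p ^ Fintype.card G := Nat.one_lt_pow Fintype.card_ne_zero hp.one_lt
      have h5 := Nat.le_of_dvd (by omega) h4
      have h6 : p ^ Fintype.card G ≤ B ^ Fintype.card G := Nat.pow_le_pow_left hpB _
      have h7 : 2 ^ k ≤ l ^ k := Nat.pow_le_pow_left hl.two_le k
      rw [← hn] at h5 h6 hp1
      omega
    refine ⟨hmain, fun hpn => ?_⟩
    obtain ⟨j, hj⟩ := hmain
    rw [hfr] at hpn
    rcases Nat.eq_zero_or_pos j with h0 | h0
    · rw [hj, h0, pow_zero]
    · exfalso
      apply hpn
      refine dvd_trans ?_ hdvd
      rw [hj]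
      exact dvd_pow_self p (by omega)

end Pool.Agent.Results.MP_dadaab_nt.TotallyRealForFree

open Pool.Agent.Results.MP_dadaab_nt.TotallyRealForFree in
theorem Pool.Agent.Results.MP_dadaab_nt.TotallyRealForFree.result :
    -- every finite group has good covers
    (∀ (G : Type) [Group G] [Finite G] (k : ℕ), ∃ (H : Type) (_ : Group H) (_ : Finite H)
      (π : H →* G), GoodCover π k) ∧
    -- the inverse Galois problem over a number field and its strong form
    (∀ (K : Type) [Field K] [NumberField K],
      (∀ (G : Type) [Group G] [Finite G], IsRealizable K G) ↔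
      ∀ (G : Type) [Group G] [Finite G] (k : ℕ), ∃ (L : Type) (_ : Field L) (_ : NumberField L)
        (_ : Algebra K L), Strong K L G k) ∧
    -- over the rational numbers
    ((∀ (G : Type) [Group G] [Finite G], IsRealizable ℚ G) ↔
      ∀ (G : Type) [Group G] [Finite G] (B : ℕ), ∃ (L : Type) (_ : Field L) (_ : NumberField L),
        IsGalois ℚ L ∧ Nonempty (G ≃* Gal(L/ℚ)) ∧ NumberField.IsTotallyReal L ∧
        LocallyCyclic ℚ L ∧ OnlyWildUpTo L B) := by
  classical
  refine ⟨?_, ?_, ?_⟩
  · intro G _ _ k
    have hft : Fintype G := Fintype.ofFinite G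
    have : NeZero (Fintype.card G ^ (k + 3)) := ⟨pow_ne_zero _ Fintype.card_ne_zero⟩
    exact ⟨_, _, inferInstance, _, goodCover G k⟩
  · intro K _ _
    constructor
    · intro h G _ _ k
      have hft : Fintype G := Fintype.ofFinite G
      have : NeZero (Fintype.card G ^ (k + 3)) := ⟨pow_ne_zero _ Fintype.card_ne_zero⟩
      obtain ⟨L, i1, i2, i3, i4, ⟨e⟩⟩ := exists_nf (h (Run7.h456.IG.Cov G (Fintype.card G ^ (k + 3))))
      exact ⟨_, _, inferInstance, inferInstance, (goodCover G k).2.2.2 K L e _ rfl⟩
    · intro h G _ _
      obtain ⟨L, i1, i2, i3, h1, h2, -⟩ := h G 0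
      exact realizable_of h2
  · constructor
    · intro h G _ _ B
      exact rational_case G B h
    · intro h G _ _
      obtain ⟨L, i1, i2, h1, h2, -⟩ := h G 0
      exact realizable_of h2
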