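import Pool.Agent.Run7.h579.UR.MainD

/-!
# Unramified extensions of quadratic fields

Let the finite group `G` act on a finite set `A` with at least three elements such that every
`g ≠ 1` moves at least three points: any faithful action if `G` is perfect, the regular action if
`G` has order at least three, and `G × Fin 3` with the action on the first factor always.  Let
`r = |A|! / |G|`.  For all large `n` divisible by `r` and every finite set `S` of primes there are

* a Galois extension `L` of `ℚ`, unramified at the primes of `S`, whose group is the subgroup of the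
  `(f, σ)` with `∏ [f i] = 1` in the abelianization of `G` of the wreath product `G ≀ S_n`, such that
  all nontrivial inertia elements are reflections `(f, (i j))` with `f j = (f i)⁻¹` and `f k = 1` for
  `k ≠ i, j`, and
* a quadratic field `K` contained in `L` such that `L / K` is unramified at all finite primes, with
  group the commutator subgroup of `G ≀ S_n`.  This is `G ≀ A_n` if `G` is perfect.

As `S` is arbitrary there are infinitely many such `K` for every `n`.  For example, `A_m ≀ A_n` is for
every `m ≥ 5` and every large even `n` the group of an unramified extension of infinitely many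
quadratic fields (`A` has `m` elements, `r = 2`).

The idea: take `α` an ordering of the roots of `X ^ m - X - x` (`m = |A|`), a `G`-invariant integral
polynomial `W` and the set `Y` of all `α` with `P x + u x + t + W α = 0`.  The cover given by the
`G`-orbits of orderings is unramified outside infinity, since no element of `G` is a transposition.
For suitable `P`, `u` and all `t` in a progression the polynomial of the `x`-values of `Y` has at
most one double root modulo every prime outside a finite set, and at the primes of this set all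
inertia is trivial.  So the inertia groups exchange two `G`-orbits of `Y` or are trivial.
-/

set_option autoImplicit false

namespace Pool.Agent.Results.MP_dadaab_nt.UnramifiedOverQuadratic

open NumberField

/-- The wreath product `G ≀ S_n`, the semidirect product `(Fin n → G) ⋊ Perm (Fin n)`. -/
abbrev Wreath (G : Type) [Group G] (n : ℕ) : Type :=
  (Fin n → G) ⋊[mulAutArrow] Equiv.Perm (Fin n)

/-- The subgroup of the `(f, σ)` in `G ≀ S_n` with `∏ [f i] = 1` in the abelianization of `G`. -/
def NormOne (G : Type) [Group G] (n : ℕ) : Subgroup (Wreath G n) where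
  carrier := {w | ∏ i, Abelianization.of (w.left i) = 1}
  one_mem' := by simp
  mul_mem' := by
    intro a b ha hb
    have h1 : ∀ i, (a * b).left i = a.left i * b.left (a.right⁻¹ i) := fun _ => rfl
    change ∏ i, Abelianization.of ((a * b).left i) = 1
    simp only [h1, map_mul, Finset.prod_mul_distrib]
    rw [Equiv.prod_comp a.right⁻¹ (fun i => Abelianization.of (b.left i))]
    have ha' : ∏ i, Abelianization.of (a.left i) = 1 := ha
    have hb' : ∏ i, Abelianization.of (b.left i) = 1 := hb
    rw [ha', hb', one_mul]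
  inv_mem' := by
    intro a ha
    have h1 : ∀ i, a⁻¹.left i = (a.left (a.right i))⁻¹ := by
      intro i
      rw [SemidirectProduct.inv_left]
      change (a.left⁻¹) ((a.right⁻¹)⁻¹ • i) = _
      rw [inv_inv]
      rfl
    change ∏ i, Abelianization.of (a⁻¹.left i) = 1
    simp only [h1, map_inv, Finset.prod_inv_distrib]
    rw [Equiv.prod_comp a.right (fun i => Abelianization.of (a.left i))]
    have ha' : ∏ i, Abelianization.of (a.left i) = 1 := ha
    rw [ha', inv_one]

/-- A reflection in `G ≀ S_n`: `(f, (i j))` with `f j = (f i)⁻¹` and `f k = 1` for all `k ≠ i, j`. -/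
def IsReflection {G : Type} [Group G] {n : ℕ} (w : Wreath G n) : Prop :=
  ∃ i j : Fin n, i ≠ j ∧ w.right = Equiv.swap i j ∧ w.left j = (w.left i)⁻¹ ∧
    ∀ k, k ≠ i → k ≠ j → w.left k = 1

/-- All nontrivial inertia elements of `L / ℚ` are mapped to reflections. -/
def InertiaReflections {G : Type} [Group G] {n : ℕ} {L : Type} [Field L] [NumberField L]
    (e : (L ≃ₐ[ℚ] L) ≃* NormOne G n) : Prop :=
  ∀ (m : Ideal (𝓞 L)) [m.IsMaximal], ∀ σ ∈ m.inertia (L ≃ₐ[ℚ] L), σ ≠ 1 → IsReflection (e σ).1

/-- The extension `L / K` of number fields is unramified at all finite primes. -/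
def Unramified (K L : Type) [Field K] [NumberField K] [Field L] [NumberField L] [Algebra K L] :
    Prop :=
  ∀ (m : Ideal (𝓞 L)) [m.IsMaximal], Algebra.IsUnramifiedAt (𝓞 K) m

/-- The number field `L` is unramified over `ℚ` at the primes above `p`. -/
def UnramifiedAbove (L : Type) [Field L] [NumberField L] (p : ℕ) : Prop :=
  ∀ (m : Ideal (𝓞 L)) [m.IsMaximal], (p : 𝓞 L) ∈ m → Algebra.IsUnramifiedAt ℤ m

theorem result (G A : Type) [Group G] [Finite G] [MulAction G A] [Finite A]
    (hA : 3 ≤ Nat.card A) (hGA : ∀ g : G, g ≠ 1 → 3 ≤ {a : A | g • a ≠ a}.ncard) :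
    ∃ n₀ : ℕ, ∀ n : ℕ, n₀ ≤ n → (Nat.card A).factorial / Nat.card G ∣ n → ∀ S : Finset ℕ,
      ∃ (L : Type) (_ : Field L) (_ : NumberField L) (_ : IsGalois ℚ L)
        (e : (L ≃ₐ[ℚ] L) ≃* NormOne G n) (K : IntermediateField ℚ L),
        InertiaReflections e ∧ Module.finrank ℚ K = 2 ∧
        Nonempty ((L ≃ₐ[K] L) ≃* commutator (Wreath G n)) ∧ Unramified K L ∧
        ∀ p ∈ S, p.Prime → UnramifiedAbove L p := by
  classical
  let _ : Fintype A := Fintype.ofFinite A
  rw [Nat.card_eq_fintype_card] at hA ⊢
  have hnt : Run7.h579.UR.Nt G A := by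
    intro g hg
    obtain ⟨a, ha, b, hb, c, hc, hab, hac, hbc⟩ :=
      (Set.two_lt_ncard (Set.toFinite _)).1 (hGA g hg)
    by_cases h : b = g • a
    · exact ⟨a, c, ha, hc, hac.symm, fun h' => hbc (h.trans h'.symm)⟩
    · exact ⟨a, b, ha, hb, hab.symm, h⟩
  obtain ⟨n₀, h⟩ := Run7.h579.UR.main_step G A hA hnt
  refine ⟨n₀, fun n hn hr S => ?_⟩
  obtain ⟨L, i1, i2, i3, π, hn5, hinj, hran, hin, hS⟩ := h n hn hr S
  obtain ⟨K, hK2, hK, hKu⟩ := Run7.h364.UR.t_FIN G n hn5 L π hinj hran (by
    intro m hm σ hσ hσ1
    obtain ⟨i, j, u, hij, h1⟩ := hin m hm σ hσ hσ1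
    rw [h1]
    exact Equiv.Perm.sign_swap hij)
  have h1 : π.range = NormOne G n := Subgroup.ext fun w => hran w
  refine ⟨L, i1, i2, i3, (MonoidHom.ofInjective hinj).trans (MulEquiv.subgroupCongr h1), K, ?_, hK2,
    hK, ?_, ?_⟩
  · intro m hm σ hσ hσ1
    obtain ⟨i, j, u, hij, h1⟩ := hin m hm σ hσ hσ1
    change IsReflection (π σ)
    rw [h1]
    refine ⟨i, j, hij, rfl, ?_, fun k hki hkj => ?_⟩
    · change (Pi.mulSingle i u * Pi.mulSingle j u⁻¹ : Fin n → G) j =
        ((Pi.mulSingle i u * Pi.mulSingle j u⁻¹ : Fin n → G) i)⁻¹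
      rw [Pi.mul_apply, Pi.mul_apply, Pi.mulSingle_eq_same, Pi.mulSingle_eq_same,
        Pi.mulSingle_eq_of_ne hij.symm, Pi.mulSingle_eq_of_ne hij, one_mul, mul_one]
    · change (Pi.mulSingle i u * Pi.mulSingle j u⁻¹ : Fin n → G) k = 1
      rw [Pi.mul_apply, Pi.mulSingle_eq_of_ne hki, Pi.mulSingle_eq_of_ne hkj, one_mul]
  · intro m hm
    rw [← Ideal.ramificationIdx_eq_one_iff]
    exact hKu m hm
  · intro p hp hpp m hm hpm
    rw [← Ideal.ramificationIdx_eq_one_iff]
    have h1 : Nat.card (m.inertia Gal(L/ℚ)) = m.ramificationIdx ℤ := by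
      rw [Ideal.card_inertia_eq_ramificationIdxIn (m.under ℤ) m,
        Ideal.ramificationIdxIn_eq_ramificationIdx (m.under ℤ) m (Gal(L/ℚ))]
    rw [← h1, Nat.card_eq_one_iff_unique]
    refine ⟨⟨?_⟩, ⟨1⟩⟩
    rintro ⟨σ, hσ⟩ ⟨τ, hτ⟩
    rw [Subtype.mk.injEq, hS p hp hpp m hm hpm σ hσ, hS p hp hpp m hm hpm τ hτ]

end Pool.Agent.Results.MP_dadaab_nt.UnramifiedOverQuadratic
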