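import Pool.Agent.Run7.h579.UR.Sub

/-!
# Unramified extensions with any given group over fields of degree `n` with group `S_n`

Let the finite group `G` act on a finite set `A` with at least three elements such that every
`g ≠ 1` moves at least three points (always possible: `A = G × Fin 3` with the action on the first
factor), and let `r = |A|! / |G|`.  For all large `n` divisible by `r` and every finite set `S` of
primes there are number fields `E ⊆ M` such that

* `E` has degree `n` over `ℚ` and the Galois group of its Galois closure is the full symmetric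
  group `S_n`: the minimal polynomial of a primitive element has Galois group `S_n`,
* `M / E` is a Galois extension with group `G`, unramified at all finite primes,
* `M / ℚ` is unramified at the primes of `S`.

As `S` is arbitrary there are infinitely many such fields `E` for every `n`.  With a product of
groups in place of `G` one gets a field `E` with unramified extensions with all groups of order at
most any given bound.

The fields are `E = ℚ(x)`, `M = ℚ(α)` for a point `α` of the configuration of
`UnramifiedOverQuadratic`: inertia elements of the Galois closure of `M` exchange two of the `n`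
orbits of `G` and fix all points of the others.
-/

set_option autoImplicit false

namespace Pool.Agent.Results.MP_dadaab_nt.UnramifiedOverSnFields

open NumberField

/-- The number field `E` has degree `n` and the Galois group of its Galois closure is `S_n`. -/
def IsSnField (E : Type) [Field E] [NumberField E] (n : ℕ) : Prop :=
  Module.finrank ℚ E = n ∧ ∃ θ : E, IntermediateField.adjoin ℚ {θ} = ⊤ ∧
    Nonempty ((minpoly ℚ θ).Gal ≃* Equiv.Perm (Fin n))

/-- The extension `M / E` of number fields is unramified at all finite primes. -/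
def Unramified (E M : Type) [Field E] [NumberField E] [Field M] [NumberField M] [Algebra E M] :
    Prop :=
  ∀ (m : Ideal (𝓞 M)) [m.IsMaximal], Algebra.IsUnramifiedAt (𝓞 E) m

/-- The number field `M` is unramified over `ℚ` at the primes above `p`. -/
def UnramifiedAbove (M : Type) [Field M] [NumberField M] (p : ℕ) : Prop :=
  ∀ (m : Ideal (𝓞 M)) [m.IsMaximal], (p : 𝓞 M) ∈ m → Algebra.IsUnramifiedAt ℤ m

theorem result (G A : Type) [Group G] [Finite G] [MulAction G A] [Finite A]
    (hA : 3 ≤ Nat.card A) (hGA : ∀ g : G, g ≠ 1 → 3 ≤ {a : A | g • a ≠ a}.ncard) :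
    ∃ n₀ : ℕ, ∀ n : ℕ, n₀ ≤ n → (Nat.card A).factorial / Nat.card G ∣ n → ∀ S : Finset ℕ,
      ∃ (E M : Type) (_ : Field E) (_ : NumberField E) (_ : Field M) (_ : NumberField M)
        (_ : Algebra E M), IsSnField E n ∧ IsGalois E M ∧ Nonempty ((M ≃ₐ[E] M) ≃* G) ∧
          Unramified E M ∧ ∀ p ∈ S, p.Prime → UnramifiedAbove M p := by
  classical
  let _ : Fintype A := Fintype.ofFinite A
  rw [Nat.card_eq_fintype_card] at hA ⊢
  have hnt : Run7.h579.UR.Nt G A := by
    intro g hg
    obtain ⟨a, ha, b, hb, c, hc, hab, hac, hbc⟩ :=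
      (Set.two_lt_ncard (Set.toFinite _)).1 (hGA g hg)
    by_cases h : b = g • a
    · exact ⟨a, c, ha, hc, hac.symm, fun h' => hbc (h.trans h'.symm)⟩
    · exact ⟨a, b, ha, hb, hab.symm, h⟩
  obtain ⟨n₀, h⟩ := Run7.h579.UR.main_step G A hA hnt
  refine ⟨n₀, fun n hn hr S => ?_⟩
  obtain ⟨L, i1, i2, i3, π, hn5, hinj, hran, hin, hS⟩ := h n hn hr S
  obtain ⟨E, M, hgal, hE1, hE2, hG, hram⟩ :=
    Run7.h579.UR.sub_step G n (by omega) L π hran hin
  have hM : NumberField M := NumberField.of_module_finite E M
  refine ⟨E, M, inferInstance, inferInstance, inferInstance, hM, inferInstance, ⟨hE1, hE2⟩, hgal,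
    hG, ?_, ?_⟩
  · intro m hm
    rw [← Ideal.ramificationIdx_eq_one_iff]
    exact hram m hm
  · intro p hp hpp m hm hpm
    rw [← Ideal.ramificationIdx_eq_one_iff]
    obtain ⟨P, hP, hlies⟩ : ∃ P : Ideal (𝓞 L), P.IsMaximal ∧ P.LiesOver m :=
      Ideal.exists_maximal_ideal_liesOver_of_isIntegral m
    have hpP : (p : 𝓞 L) ∈ P := by
      have h2 : m = P.under (𝓞 M) := hlies.over
      rw [h2] at hpm
      have h3 : algebraMap (𝓞 M) (𝓞 L) (p : 𝓞 M) ∈ P := hpm
      rwa [map_natCast] at h3
    have h1 : Nat.card (P.inertia Gal(L/ℚ)) = P.ramificationIdx ℤ := by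
      rw [Ideal.card_inertia_eq_ramificationIdxIn (P.under ℤ) P,
        Ideal.ramificationIdxIn_eq_ramificationIdx (P.under ℤ) P (Gal(L/ℚ))]
    have h4 : P.ramificationIdx ℤ = 1 := by
      rw [← h1, Nat.card_eq_one_iff_unique]
      refine ⟨⟨?_⟩, ⟨1⟩⟩
      rintro ⟨σ, hσ⟩ ⟨τ, hτ⟩
      rw [Subtype.mk.injEq, hS p hp hpp P hP hpP σ hσ, hS p hp hpp P hP hpP τ hτ]
    have h5 := Ideal.ramificationIdx_tower (R := ℤ) m P
    rw [h4] at h5
    exact Nat.eq_one_of_mul_eq_one_right h5.symm

end Pool.Agent.Results.MP_dadaab_nt.UnramifiedOverSnFields
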