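import Mathlib
import Pool.Agent.W299.GR.All
import Pool.Agent.Run7.h847.WG.Core

/-!
# Every finite group as the automorphism group of a totally real number field with prescribed
# local behaviour

For every finite group `G` there are `n₀`, `C` such that the following holds for all `r` and all
`n ≥ n₀ + C r`.  Take a finite set `S` of primes and `r` continuous homomorphisms
`ψ p i : Gal(ℚ̄_p/ℚ_p) → G` for each `p` in `S`.  There is a totally real number field `F` of
degree `n |G|` whose automorphism group is isomorphic to `G`, by an isomorphism `e`, and which has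
for every `p` in `S` embeddings `σ i` (`i < r`) into the algebraic closure of `ℚ_p` with
`σ i ∘ e (ψ p i τ) = τ ∘ σ i`; their restrictions to the fixed field of `Aut F` are different
embeddings of this field, of degree `n`, into `ℚ_p`.  The Galois closure of `F` has the group
`G ≀ S_n`.
-/

set_option autoImplicit false

open Pool.Agent.H391R2

namespace Pool.Agent.Results.MP_dadaab_nt.WeakGrunwaldTotallyReal

/-- The absolute Galois group of `ℚ_p`. -/
abbrev GalQp (p : ℕ) [Fact p.Prime] : Type :=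
  AlgebraicClosure ℚ_[p] ≃ₐ[ℚ_[p]] AlgebraicClosure ℚ_[p]

/-- The Galois closure `K` of the number field `F` (`K / ℚ` is Galois, contains `F` by `ι` and only
the identity fixes all conjugates of `F`) has a Galois group isomorphic to `W`. -/
def ClosureHasGroup (F : Type) [Field F] (W : Type) [Group W] : Prop :=
  ∃ (K : Type) (_ : Field K) (_ : NumberField K) (_ : IsGalois ℚ K) (ι : F →+* K),
    (∀ s : K ≃ₐ[ℚ] K, (∀ (t : K ≃ₐ[ℚ] K) (x : F), s (t (ι x)) = t (ι x)) → s = 1) ∧
    Nonempty ((K ≃ₐ[ℚ] K) ≃* W)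

/-- The local condition at `p`: there are embeddings `σ i` of `F` into the algebraic closure of
`ℚ_p` such that `τ` acts on `σ i (F)` as the automorphism `e (ψ i τ)` of `F`, and which are
different on the fixed field of `Aut F` (`σ i` is not of the form `σ j ∘ g` for `i ≠ j` and an
automorphism `g`). -/
def LocalCondition {F G : Type} [Field F] [NumberField F] [Group G] (e : G ≃* (F ≃ₐ[ℚ] F)) {r : ℕ}
    (p : ℕ) [Fact p.Prime] (ψ : Fin r → (GalQp p →* G)) : Prop :=
  ∃ σ : Fin r → (F →+* AlgebraicClosure ℚ_[p]),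
    (∀ i τ x, σ i (e (ψ i τ) x) = τ (σ i x)) ∧
    ∀ i j, i ≠ j → ∀ g : F ≃ₐ[ℚ] F, ∃ x, σ i x ≠ σ j (g x)

end Pool.Agent.Results.MP_dadaab_nt.WeakGrunwaldTotallyReal

open Pool.Agent.Results.MP_dadaab_nt.WeakGrunwaldTotallyReal in
theorem Pool.Agent.Results.MP_dadaab_nt.WeakGrunwaldTotallyReal.result :
    ∀ (G : Type) [Group G] [Finite G], ∃ n₀ C : ℕ, ∀ r n : ℕ, n₀ + C * r ≤ n →
      ∀ (S : Finset ℕ) [∀ p : S, Fact (p : ℕ).Prime] (ψ : ∀ p : S, Fin r → (GalQp (p : ℕ) →* G)),
        (∀ (p : S) (i : Fin r), IsOpen ((ψ p i).ker : Set (GalQp (p : ℕ)))) →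
        ∃ (F : Type) (_ : Field F) (_ : NumberField F) (e : G ≃* (F ≃ₐ[ℚ] F)),
          NumberField.IsTotallyReal F ∧ Module.finrank ℚ F = n * Nat.card G ∧
          ClosureHasGroup F (Wr G n) ∧ ∀ p : S, LocalCondition e (p : ℕ) (ψ p) := by
  classical
  intro G _ _
  obtain ⟨n₀, C₀, hn₀⟩ := Pool.Agent.W299.GR.local_hom_all G
  refine ⟨n₀ + 3, C₀ + 1, fun r n hn S _ ψ hψ => ?_⟩
  have hrn : r ≤ n := by nlinarith
  have hn3 : 3 ≤ n := by nlinarith
  have hn1 : n₀ + C₀ * r ≤ n := by nlinarith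
  -- the local homomorphisms into `G ≀ S_r`
  let Ψ : ∀ p : S, GalQp (p : ℕ) →* Wr G r := fun p =>
    SemidirectProduct.inl.comp (MonoidHom.pi (fun i => ψ p i))
  have hΨr : ∀ p τ, (Ψ p τ).right = 1 := fun p τ => rfl
  have hΨl : ∀ p τ i, (Ψ p τ).left i = ψ p i τ := fun p τ i => rfl
  have hΨo : ∀ p : S, IsOpen ((Ψ p).ker : Set (GalQp (p : ℕ))) := by
    intro p
    have h1 : ((Ψ p).ker : Set (GalQp (p : ℕ))) = ⋂ i, ((ψ p i).ker : Set (GalQp (p : ℕ))) := by
      ext τ
      rw [Set.mem_iInter]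
      constructor
      · intro h i
        have h2 : Ψ p τ = 1 := h
        have h3 : (Ψ p τ).left i = 1 := by rw [h2]; rfl
        exact h3
      · intro h
        have h2 : ∀ i, ψ p i τ = 1 := h
        have h3 : Ψ p τ = 1 := by
          apply SemidirectProduct.ext
          · funext i
            exact h2 i
          · rfl
        exact h3
    rw [h1]
    exact isOpen_iInter_of_finite fun i => hψ p i
  obtain ⟨K, i1, i2, i3, e0, h1, h2⟩ := hn₀ r n hrn hn1 S (fun p => (p : ℕ))
    Subtype.val_injective Ψ hΨo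
  let i0 : Fin n := ⟨0, by omega⟩
  refine ⟨Run7.h847.WG.FF e0 i0, inferInstance, inferInstance, Run7.h847.WG.eqv e0 i0 hn3,
    inferInstance, Run7.h847.WG.finrank_FF e0 i0, ?_, fun p => ?_⟩
  · exact ⟨K, i1, i2, i3, (Run7.h847.WG.FF e0 i0).val.toRingHom,
      fun s hs => Run7.h847.WG.closure_FF e0 i0 s hs, ⟨e0⟩⟩
  · obtain ⟨σ, hσ⟩ := h2 p
    choose D hD1 hD2 hD3 using hσ
    let c : Fin r → Fin n := fun i => Fin.castLE hrn i
    let γ : Fin r → (K ≃ₐ[ℚ] K) := fun i => e0.symm (⟨1, Equiv.swap i0 (c i)⟩ : Wr G n)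
    have hγ : ∀ i, e0 (γ i) = (⟨1, Equiv.swap i0 (c i)⟩ : Wr G n) := fun i =>
      MulEquiv.apply_symm_apply _ _
    refine ⟨fun i => σ.comp ((γ i : K →+* K).comp (Run7.h847.WG.FF e0 i0).val.toRingHom),
      fun i τ x => ?_, fun i j hij g => ?_⟩
    · -- the element acting on `F`
      have hr : (e0 ((γ i)⁻¹ * D τ * γ i)).right i0 = i0 := by
        rw [map_mul, map_mul, map_inv, hγ, wr_mul_right, wr_mul_right,
          SemidirectProduct.inv_right, Equiv.Perm.mul_apply, Equiv.Perm.mul_apply,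
          Equiv.Perm.inv_eq_iff_eq]
        change (e0 (D τ)).right ((Equiv.swap i0 (c i)) i0) = (Equiv.swap i0 (c i)) i0
        rw [Equiv.swap_apply_left]
        exact ((hD2 τ) i).1
      have hl : (e0 ((γ i)⁻¹ * D τ * γ i)).left i0 = ψ p i τ := by
        rw [map_mul, map_mul, map_inv, hγ, wr_mul_left, wr_mul_left, wr_inv_left,
          SemidirectProduct.inv_right]
        change (1 : G)⁻¹ * (e0 (D τ)).left (((Equiv.swap i0 (c i))⁻¹)⁻¹ i0) * 1 = _
        rw [inv_inv, Equiv.swap_apply_left, inv_one, one_mul, mul_one]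
        exact ((hD2 τ) i).2
      have h3 := Run7.h847.WG.eqv_coe e0 i0 hn3 _ hr x
      rw [hl] at h3
      change σ (γ i (((Run7.h847.WG.eqv e0 i0 hn3) (ψ p i τ) x : Run7.h847.WG.FF e0 i0) : K)) =
        τ (σ (γ i x))
      rw [h3, hD1]
      change σ (γ i ((γ i).symm (D τ (γ i x)))) = _
      rw [AlgEquiv.apply_symm_apply]
    · by_contra hall
      have hall' : ∀ x : Run7.h847.WG.FF e0 i0, σ (γ i x) = σ (γ j (g x)) := fun x =>
        not_not.1 fun hx => hall ⟨x, hx⟩
      obtain ⟨g', rfl⟩ := (Run7.h847.WG.eqv e0 i0 hn3).surjective g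
      have h4 : (γ j * e0.symm (Run7.h847.WG.sg i0 g'))⁻¹ * γ i ∈ Run7.h847.WG.HH e0 i0 := by
        refine Run7.h847.WG.fix_FF fun x hx => ?_
        have h5 := σ.injective (hall' ⟨x, hx⟩)
        have h6 : γ i x = (γ j * e0.symm (Run7.h847.WG.sg i0 g')) x := h5
        rw [AlgEquiv.mul_apply, h6]
        exact AlgEquiv.symm_apply_apply _ _
      have h7 := (Run7.h847.WG.mem_HH.1 h4).1
      rw [map_mul, map_inv, map_mul, hγ, hγ, MulEquiv.apply_symm_apply, wr_mul_right,
        SemidirectProduct.inv_right, wr_mul_right, Run7.h847.WG.sg_right, mul_one,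
        Equiv.Perm.mul_apply, Equiv.Perm.inv_eq_iff_eq] at h7
      change (Equiv.swap i0 (c i)) i0 = (Equiv.swap i0 (c j)) i0 at h7
      rw [Equiv.swap_apply_left, Equiv.swap_apply_left] at h7
      exact hij (Fin.castLE_injective hrn h7)
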